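import Pool.Agent.TH835.Cor.Low

/-!
# Corner-free sets in `(F_2^n)^2` of small three-party rank
-/

set_option autoImplicit false

namespace Pool.Agent.Results.MP_db4732_co.ThreePartyRank

open Finset

/-- `F_2^n` -/
abbrev V (n : ℕ) := Fin n → ZMod 2

/-- `A ⊆ (F_2^n)^2` contains no nontrivial corner `(x, y), (x, y + z), (x + z, y)`, `z ≠ 0`. -/
def CornerFree {n : ℕ} (A : Finset (V n × V n)) : Prop :=
  ∀ x y z : V n, z ≠ 0 → ¬ ((x, y) ∈ A ∧ (x, y + z) ∈ A ∧ (x + z, y) ∈ A)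

/-- `f (x, y) = ∑ i, R_i (x, y) w_i (x + y)` with `S` arbitrary functions `w_i` of `x + y` and `S`
matrices `R_i` over `K` of rank at most `r`. -/
def Decomposes {n : ℕ} {K : Type} [Field K] (S r : ℕ) (f : V n → V n → K) : Prop :=
  ∃ (u v : Fin S → Fin r → V n → K) (w : Fin S → V n → K),
    ∀ x y, f x y = ∑ i, (∑ j, u i j x * v i j y) * w i (x + y)

/-- Let `A ⊆ (F_2^n)^2` be corner-free. If `A` is the union of the supports of `N` functions
`f_k (x, y) = ∑ i, R_i (x, y) w_i (x + y)` with values in a field of characteristic 2, with `S`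
summands and with matrices `R_i` of rank at most `r`, then
`|A| ≤ N S (2 r + 1) 54^{n / 3} ≤ N S (2 r + 1) 4^{(1 - 0.04) n}`. -/
theorem result (n N S r : ℕ) (K : Type) [Field K] [CharP K 2] (A : Finset (V n × V n))
    (f : Fin N → V n → V n → K) (hA : CornerFree A) (hf : ∀ k, Decomposes S r (f k))
    (hfA : ∀ x y, (x, y) ∈ A ↔ ∃ k, f k x y ≠ 0) :
    (A.card : ℝ) ≤ N * S * (2 * r + 1) * (54 : ℝ) ^ ((n : ℝ) / 3) ∧
      (54 : ℝ) ^ ((n : ℝ) / 3) ≤ (4 : ℝ) ^ ((1 - 0.04 : ℝ) * n) := by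
  classical
  refine ⟨?_, ?_⟩
  · let B : Fin N → Finset (V n × V n) := fun k => univ.filter fun p => f k p.1 p.2 ≠ 0
    have hB : ∀ k, Pool.Agent.TH835.Cor.CornerFree (B k) := by
      intro k x y z hz h
      simp only [B, mem_filter, mem_univ, true_and] at h
      exact hA x y z hz ⟨(hfA _ _).2 ⟨k, h.1⟩, (hfA _ _).2 ⟨k, h.2.1⟩, (hfA _ _).2 ⟨k, h.2.2⟩⟩
    have hsub : A ⊆ univ.biUnion B := by
      intro p hp
      obtain ⟨k, hk⟩ := (hfA p.1 p.2).1 hp
      exact mem_biUnion.2 ⟨k, mem_univ _, by simp only [B, mem_filter, mem_univ, true_and]; exact hk⟩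
    have hcard : ∀ c : ℕ, (∀ k, (B k).card ≤ c) → A.card ≤ N * c := by
      intro c hc
      calc A.card ≤ (univ.biUnion B).card := Finset.card_le_card hsub
        _ ≤ ∑ k, (B k).card := Finset.card_biUnion_le
        _ ≤ ∑ _k : Fin N, c := Finset.sum_le_sum fun k _ => hc k
        _ = N * c := by rw [Finset.sum_const, Finset.card_univ, Fintype.card_fin, smul_eq_mul]
    have hd : ∀ d : ℕ, A.card ≤ N * (S * 2 ^ n *
        ((univ.filter fun B : Finset (Fin n) => d < B.card).card +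
          2 * r * (univ.filter fun B : Finset (Fin n) => B.card ≤ d / 2).card)) := by
      intro d
      apply hcard
      intro k
      obtain ⟨u, v, w, h⟩ := hf k
      refine Pool.Agent.TH835.Cor.rank_bound (B k) (hB k) u v w (fun x y => ?_) d
      rw [← h]
      simp [B]
    -- choose `d = 2 n / 3`
    have h2 := hd (2 * n / 3)
    set M := (univ.filter fun B : Finset (Fin n) => B.card ≤ n / 3).card with hM
    have h3 : (univ.filter fun B : Finset (Fin n) => 2 * n / 3 < B.card).card ≤ M :=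
      Pool.Agent.TH835.Cor.large_sets (n / 3) (2 * n / 3) (by omega)
    have h4 : (univ.filter fun B : Finset (Fin n) => B.card ≤ 2 * n / 3 / 2).card ≤ M := by
      refine Finset.card_le_card fun C hC => ?_
      rw [mem_filter] at hC ⊢
      refine ⟨hC.1, ?_⟩
      have := hC.2
      omega
    have h5 : A.card ≤ N * (S * 2 ^ n * (M + 2 * r * M)) := by
      refine h2.trans (Nat.mul_le_mul_left _ (Nat.mul_le_mul_left _ ?_))
      exact Nat.add_le_add h3 (Nat.mul_le_mul_left _ h4)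
    have h6 : (M : ℝ) ≤ (27 / 4 : ℝ) ^ ((n : ℝ) / 3) := by
      have h7 : (M : ℝ) ^ 3 ≤ (27 / 4 : ℝ) ^ n := Pool.Agent.TH835.Cor.small_sets (n / 3) (by omega)
      have h8 : ((27 / 4 : ℝ) ^ ((n : ℝ) / 3)) ^ 3 = (27 / 4 : ℝ) ^ n := by
        rw [← Real.rpow_natCast, ← Real.rpow_mul (by norm_num)]
        rw [show (n : ℝ) / 3 * ((3 : ℕ) : ℝ) = n by push_cast; ring, Real.rpow_natCast]
      rw [← h8] at h7
      exact le_of_pow_le_pow_left₀ (by norm_num) (by positivity) h7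
    have h9 : (54 : ℝ) ^ ((n : ℝ) / 3) = 2 ^ n * (27 / 4 : ℝ) ^ ((n : ℝ) / 3) := by
      have : (2 : ℝ) ^ n = (8 : ℝ) ^ ((n : ℝ) / 3) := by
        rw [show (8 : ℝ) = (2 : ℝ) ^ (3 : ℝ) by norm_num, ← Real.rpow_mul (by norm_num),
          show (3 : ℝ) * ((n : ℝ) / 3) = n by ring, Real.rpow_natCast]
      rw [this, ← Real.mul_rpow (by norm_num) (by norm_num)]
      norm_num
    have h10 : (A.card : ℝ) ≤ N * (S * 2 ^ n * (M + 2 * r * M)) := by exact_mod_cast h5
    refine h10.trans ?_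
    rw [h9]
    have : (N : ℝ) * (S * 2 ^ n * (M + 2 * r * M)) = (N * S * (2 * r + 1) * 2 ^ n) * M := by ring
    rw [this]
    calc ((N : ℝ) * S * (2 * r + 1) * 2 ^ n) * M ≤
        (N * S * (2 * r + 1) * 2 ^ n) * (27 / 4 : ℝ) ^ ((n : ℝ) / 3) :=
          mul_le_mul_of_nonneg_left h6 (by positivity)
      _ = _ := by ring
  · have h54 : (54 : ℝ) ≤ (4 : ℝ) ^ (2.88 : ℝ) := by
      have : (54 : ℝ) ^ 25 ≤ ((4 : ℝ) ^ (2.88 : ℝ)) ^ 25 := by
        rw [← Real.rpow_natCast ((4 : ℝ) ^ (2.88 : ℝ)), ← Real.rpow_mul (by norm_num),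
          show (2.88 : ℝ) * ((25 : ℕ) : ℝ) = ((72 : ℕ) : ℝ) by norm_num, Real.rpow_natCast]
        norm_num
      exact le_of_pow_le_pow_left₀ (by norm_num) (by positivity) this
    calc (54 : ℝ) ^ ((n : ℝ) / 3) ≤ ((4 : ℝ) ^ (2.88 : ℝ)) ^ ((n : ℝ) / 3) :=
          Real.rpow_le_rpow (by norm_num) h54 (by positivity)
      _ = (4 : ℝ) ^ ((1 - 0.04 : ℝ) * n) := by
          rw [← Real.rpow_mul (by norm_num)]
          congr 1
          ring

end Pool.Agent.Results.MP_db4732_co.ThreePartyRank
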